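import Pool.Agent.J4.H8.TT.Balance

set_option autoImplicit false

/-!
# Applications: sparse families of Lipschitz set functions, matrices with small column sums
-/

open Finset

namespace Pool.Agent.J4.H8.TT

/-- the set of a vertex of the cube -/
def st {m : ℕ} (x : Fin m → Bool) : Finset (Fin m) := univ.filter (fun i => x i = true)

lemma st_not {m : ℕ} (x : Fin m → Bool) : st (fun i => !x i) = (st x)ᶜ := by
  ext i; simp [st]

lemma st_update_true {m : ℕ} (x : Fin m → Bool) (i : Fin m) :
    st (Function.update x i true) = insert i (st x) := by
  ext j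
  by_cases h : j = i
  · subst h; simp [st]
  · simp [st, Function.update_of_ne h, h]

lemma st_update_false {m : ℕ} (x : Fin m → Bool) (i : Fin m) :
    insert i (st (Function.update x i false)) = insert i (st x) := by
  ext j
  by_cases h : j = i
  · subst h; simp [st]
  · simp [st, Function.update_of_ne h, h]

theorem lipschitz (t m n : ℕ) (f : Fin n → Finset (Fin m) → ℝ)
    (hf : ∀ i : Fin n, ∀ S : Finset (Fin m), ∀ g : Fin m, |f i (insert g S) - f i S| ≤ 1)
    (hs : ∀ g : Fin m, {i : Fin n | ∃ S : Finset (Fin m), f i S ≠ f i (insert g S)}.ncard ≤ t) :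
    ∃ S : Finset (Fin m), ∀ i : Fin n, |f i S - f i Sᶜ| ≤ t := by
  classical
  let w : Fin n → Fin m → ℝ := fun i g => if ∃ S : Finset (Fin m), f i S ≠ f i (insert g S) then 2 else 0
  have h1 : ∀ (i : Fin n) (x : Fin m → Bool) (g : Fin m) (b : Bool),
      |f i (st (Function.update x g b)) - f i (st x)| ≤ w i g / 2 := by
    intro i x g b
    by_cases hr : ∃ S : Finset (Fin m), f i S ≠ f i (insert g S)
    · have : w i g / 2 = 1 := by simp only [w, if_pos hr]; norm_num
      rw [this]
      by_cases hb : x g = b
      · rw [← hb, Function.update_eq_self, sub_self, abs_zero]; norm_num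
      · cases b
        · have h2 : st x = insert g (st (Function.update x g false)) := by
            rw [st_update_false]
            refine (insert_eq_of_mem ?_).symm
            simp [st, Bool.eq_true_of_not_eq_false hb]
          have h3 := hf i (st (Function.update x g false)) g
          rw [← h2, abs_sub_comm] at h3
          exact h3
        · rw [st_update_true]
          exact hf i _ g
    · have : w i g / 2 = 0 := by simp only [w, if_neg hr]; norm_num
      rw [this]
      push Not at hr
      cases b
      · rw [hr (st (Function.update x g false)), st_update_false, ← hr (st x)]; simp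
      · rw [st_update_true, ← hr (st x)]; simp
  have h2 := balance (fun i x => f i (st x) - f i (st fun j => !x j)) w (2 * t) (by positivity)
    (by
      intro i x
      simp only [Bool.not_not]
      ring)
    (by
      intro i x g b
      have e1 := h1 i x g b
      have e2 := h1 i (fun j => !x j) g (!b)
      have e3 : (fun j => !(Function.update x g b j)) = Function.update (fun j => !x j) g (!b) := by
        funext j
        by_cases h : j = g
        · subst h; simp
        · simp [Function.update_of_ne h]
      rw [e3]
      rw [abs_le] at e1 e2 ⊢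
      constructor <;> linarith [e1.1, e1.2, e2.1, e2.2])
    (by
      intro g
      have h3 : ∑ i, w i g = 2 * ((univ.filter fun i : Fin n =>
          ∃ S : Finset (Fin m), f i S ≠ f i (insert g S)).card : ℝ) := by
        simp only [w]
        rw [← sum_filter, sum_const, nsmul_eq_mul]
        ring
      rw [h3]
      have h4 := hs g
      rw [Set.ncard_eq_toFinset_card'] at h4
      have h5 : (univ.filter fun i : Fin n =>
          ∃ S : Finset (Fin m), f i S ≠ f i (insert g S)).card ≤ t := by
        refine le_trans (le_of_eq ?_) h4
        congr 1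
        ext i; simp
      have h6 : ((univ.filter fun i : Fin n =>
          ∃ S : Finset (Fin m), f i S ≠ f i (insert g S)).card : ℝ) ≤ t := by exact_mod_cast h5
      linarith)
  obtain ⟨x, hx⟩ := h2
  refine ⟨st x, fun i => ?_⟩
  have h3 := hx i
  rw [st_not] at h3
  linarith

/-- sign of a truth value -/
def sg (b : Bool) : ℝ := if b then 1 else -1

lemma sg_not (b : Bool) : sg (!b) = - sg b := by cases b <;> simp [sg]

lemma sg_or (b : Bool) : sg b = 1 ∨ sg b = -1 := by cases b <;> simp [sg]

theorem matrix {m n : ℕ} (A : Fin m → Fin n → ℝ) (t : ℝ) (ht : 0 ≤ t)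
    (hA : ∀ i, ∑ j, |A j i| ≤ t) :
    ∃ x : Fin n → ℝ, (∀ i, x i = 1 ∨ x i = -1) ∧ ∀ j, |∑ i, A j i * x i| ≤ t := by
  obtain ⟨x, hx⟩ := balance (fun j x => ∑ i, A j i * sg (x i)) (fun j i => 2 * |A j i|) (2 * t)
    (by positivity)
    (by
      intro j x
      rw [← sum_neg_distrib]
      refine sum_congr rfl fun i _ => ?_
      rw [sg_not]; ring)
    (by
      intro j x i b
      rw [← sum_sub_distrib]
      rw [sum_eq_single i]
      · rw [Function.update_self, ← mul_sub, abs_mul, mul_comm]
        refine mul_le_mul_of_nonneg_right ?_ (abs_nonneg _)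
        cases b <;> cases x i <;> norm_num [sg]
      · intro i' _ h
        rw [Function.update_of_ne h, sub_self]
      · intro h; exact absurd (mem_univ _) h)
    (by
      intro i
      rw [← mul_sum]
      linarith [hA i])
  refine ⟨fun i => sg (x i), fun i => ?_, fun j => ?_⟩
  · exact sg_or _
  · have := hx j
    linarith

end Pool.Agent.J4.H8.TT
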