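import Pool.Agent.J4.H8.TT.Tucker

set_option autoImplicit false

/-!
# Balancing sparse families of odd Lipschitz functions on the cube
-/

open Finset

namespace Pool.Agent.J4.H8.TT

lemma lip_set {m : ℕ} (g : (Fin m → Bool) → ℝ) (w : Fin m → ℝ)
    (hlip : ∀ x i b, |g (Function.update x i b) - g x| ≤ w i) (s : Finset (Fin m)) :
    ∀ x y : Fin m → Bool, (∀ i, i ∉ s → x i = y i) → |g x - g y| ≤ ∑ i ∈ s, w i := by
  induction s using Finset.induction_on with
  | empty =>
    intro x y h
    have : x = y := funext fun i => h i (notMem_empty _)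
    rw [this]; simp
  | insert a s ha ih =>
    intro x y h
    rw [sum_insert ha]
    have h1 := ih (Function.update x a (y a)) y (by
      intro i hi
      by_cases hia : i = a
      · subst hia; simp
      · rw [Function.update_of_ne hia]
        exact h i (by simp [hia, hi]))
    have h2 := hlip x a (y a)
    have h3 : g x - g y = (g (Function.update x a (y a)) - g y) -
        (g (Function.update x a (y a)) - g x) := by ring
    rw [h3]
    calc |(g (Function.update x a (y a)) - g y) - (g (Function.update x a (y a)) - g x)|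
        ≤ |g (Function.update x a (y a)) - g y| + |g (Function.update x a (y a)) - g x| := by
          rw [sub_eq_add_neg]
          exact (abs_add_le _ _).trans (by rw [abs_neg])
      _ ≤ w a + ∑ i ∈ s, w i := by linarith

/-- Odd functions `g v` on the cube, where `g v` changes by at most `w v i` if the coordinate `i`
is changed, and `∑ v, w v i ≤ t` for all `i`: some vertex of the cube has `|g v x| ≤ t / 2` for all
`v`. -/
theorem balance {m n : ℕ} (g : Fin n → (Fin m → Bool) → ℝ) (w : Fin n → Fin m → ℝ) (t : ℝ)
    (ht : 0 ≤ t) (hodd : ∀ v x, g v (fun i => !x i) = - g v x)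
    (hlip : ∀ v x i b, |g v (Function.update x i b) - g v x| ≤ w v i)
    (hw : ∀ i, ∑ v, w v i ≤ t) : ∃ x, ∀ v, |g v x| ≤ t / 2 := by
  classical
  by_contra hcon
  push Not at hcon
  -- the first violated function
  let P : (Fin m → Bool) → Fin n → Prop := fun x v => t / 2 < |g v x|
  have hP : ∀ x, (univ.filter (P x)).Nonempty := by
    intro x
    obtain ⟨v, hv⟩ := hcon x
    exact ⟨v, by simp [P, hv]⟩
  let vv : (Fin m → Bool) → Fin n := fun x => (univ.filter (P x)).min' (hP x)
  have hvv : ∀ x, t / 2 < |g (vv x) x| := by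
    intro x
    have := min'_mem _ (hP x)
    rw [mem_filter] at this
    exact this.2
  let lam : (Fin m → Bool) → Fin n × Bool := fun x => (vv x, decide (0 < g (vv x) x))
  have hPn : ∀ x, P (fun i => !x i) = P x := by
    intro x
    funext v
    change (t / 2 < |g v fun i => !x i|) = (t / 2 < |g v x|)
    rw [hodd, abs_neg]
  have hvn : ∀ x, vv (fun i => !x i) = vv x := by
    intro x
    have h1 : ∀ (Q : Fin n → Prop) (hQ : (univ.filter Q).Nonempty), Q = P x →
        (univ.filter Q).min' hQ = (univ.filter (P x)).min' (hP x) := by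
      intro Q hQ h; subst h; rfl
    exact h1 _ _ (hPn x)
  have hl : ∀ x, lam (fun i => !x i) = ng (lam x) := by
    intro x
    change (vv (fun i => !x i), decide (0 < g (vv (fun i => !x i)) (fun i => !x i))) =
      (vv x, !decide (0 < g (vv x) x))
    rw [hvn, hodd]
    congr 1
    have h1 := hvv x
    have h2 : g (vv x) x ≠ 0 := by
      intro h; rw [h, abs_zero] at h1; linarith
    rw [← decide_not]
    refine decide_eq_decide.2 ?_
    rcases lt_or_gt_of_ne h2 with h3 | h3
    · constructor
      · intro _; linarith
      · intro _; linarith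
    · constructor
      · intro h; linarith
      · intro h; exact absurd h3 h
  obtain ⟨σ, h1, h2, h3⟩ := tucker lam hl
  set D := both (labs lam σ) with hD
  -- each function in D has weight more than t on the free coordinates
  have key : ∀ v ∈ D, t < ∑ i ∈ fr σ, w v i := by
    intro v hv
    unfold both at hD
    rw [hD, mem_filter] at hv
    obtain ⟨_, hv1, hv2⟩ := hv
    rw [mem_labs] at hv1 hv2
    obtain ⟨x, hx, hx2⟩ := hv1
    obtain ⟨y, hy, hy2⟩ := hv2
    have e1 : vv x = v := congrArg Prod.fst hx2
    have e2 : decide (0 < g (vv x) x) = true := congrArg Prod.snd hx2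
    have e3 : vv y = v := congrArg Prod.fst hy2
    have e4 : decide (0 < g (vv y) y) = false := congrArg Prod.snd hy2
    have f1 := hvv x
    have f2 := hvv y
    rw [e1] at e2 f1
    rw [e3] at e4 f2
    have g1 : 0 < g v x := by simpa using e2
    have g2 : ¬ 0 < g v y := by simpa using e4
    rw [abs_of_pos g1] at f1
    rw [abs_of_nonpos (not_lt.1 g2)] at f2
    have h5 := lip_set (g v) (w v) (hlip v) (fr σ) x y (by
      intro i hi
      rw [mem_fr] at hi
      obtain ⟨b, hb⟩ := Option.ne_none_iff_exists'.1 hi
      rw [hx i b hb, hy i b hb])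
    have h6 := le_abs_self (g v x - g v y)
    linarith
  have hne : D.Nonempty := by rw [← card_pos]; omega
  have h4 : (D.card : ℝ) * t < ∑ v ∈ D, ∑ i ∈ fr σ, w v i := by
    rw [← nsmul_eq_mul, ← sum_const]
    exact sum_lt_sum_of_nonempty hne key
  have hw0 : ∀ v i, 0 ≤ w v i := by
    intro v i
    exact (abs_nonneg _).trans (hlip v (fun _ => true) i true)
  have h5 : ∑ v ∈ D, ∑ i ∈ fr σ, w v i ≤ ((fr σ).card : ℝ) * t := by
    rw [sum_comm, ← nsmul_eq_mul, ← sum_const]
    refine sum_le_sum fun i _ => ?_
    refine le_trans ?_ (hw i)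
    exact sum_le_sum_of_subset_of_nonneg (subset_univ _) fun v _ _ => hw0 v i
  have h6 : ((fr σ).card : ℝ) ≤ D.card := by exact_mod_cast h3
  nlinarith

end Pool.Agent.J4.H8.TT
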