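import Mathlib

set_option autoImplicit false

/-!
# Chains mod 2 on sets of signed labels, cones and the antipode
-/

open Finset

namespace Pool.Agent.J4.H8.TT

variable {V : Type} [Fintype V] [LinearOrder V]

/-- mod 2 chains: functions on the finite sets of signed labels -/
abbrev Ch (V : Type) := Finset (V × Bool) → ZMod 2

/-- the opposite label -/
def ng (a : V × Bool) : V × Bool := (a.1, !a.2)

omit [Fintype V] [LinearOrder V] in
@[simp] lemma ng_ng (a : V × Bool) : ng (ng a) = a := by simp [ng]

omit [Fintype V] [LinearOrder V] in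
lemma ng_ne (a : V × Bool) : ng a ≠ a := by
  intro h
  have := congrArg Prod.snd h
  simp [ng] at this

omit [Fintype V] [LinearOrder V] in
lemma ng_inj : Function.Injective (ng : V × Bool → V × Bool) :=
  Function.LeftInverse.injective ng_ng

/-- the opposite set of labels -/
def ngS (B : Finset (V × Bool)) : Finset (V × Bool) := B.image ng

omit [Fintype V] in
lemma mem_ngS (a : V × Bool) (B : Finset (V × Bool)) : a ∈ ngS B ↔ ng a ∈ B := by
  unfold ngS
  rw [mem_image]
  constructor
  · rintro ⟨b, hb, rfl⟩; simpa using hb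
  · intro h; exact ⟨ng a, h, by simp⟩

omit [Fintype V] in
@[simp] lemma ngS_ngS (B : Finset (V × Bool)) : ngS (ngS B) = B := by
  ext a; simp [mem_ngS]

omit [Fintype V] in
lemma ngS_insert (a : V × Bool) (B : Finset (V × Bool)) :
    ngS (insert a B) = insert (ng a) (ngS B) := by
  unfold ngS; rw [image_insert]

omit [Fintype V] in
lemma ngS_erase (a : V × Bool) (B : Finset (V × Bool)) :
    ngS (B.erase a) = (ngS B).erase (ng a) := by
  ext b
  simp only [mem_ngS, mem_erase]
  constructor
  · rintro ⟨h1, h2⟩
    refine ⟨fun h => h1 ?_, h2⟩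
    rw [h]; simp
  · rintro ⟨h1, h2⟩
    refine ⟨fun h => h1 ?_, h2⟩
    rw [← h]; simp

omit [Fintype V] in
@[simp] lemma ngS_empty : ngS (∅ : Finset (V × Bool)) = ∅ := by simp [ngS]

omit [Fintype V] in
lemma ngS_card (B : Finset (V × Bool)) : (ngS B).card = B.card :=
  card_image_of_injective _ ng_inj

/-- the boundary (the empty set included) -/
def bd : Ch V →+ Ch V where
  toFun c := fun B => ∑ a, if a ∈ B then 0 else c (insert a B)
  map_zero' := by funext B; simp
  map_add' c d := by
    funext B
    simp only [Pi.add_apply]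
    rw [← sum_add_distrib]
    refine sum_congr rfl fun a _ => ?_
    split_ifs <;> simp

/-- the cone with apex `a` -/
def cone (a : V × Bool) : Ch V →+ Ch V where
  toFun c := fun B => if a ∈ B then c (B.erase a) else 0
  map_zero' := by funext B; simp
  map_add' c d := by
    funext B
    simp only [Pi.add_apply]
    split_ifs <;> simp

/-- the antipode on chains -/
def An : Ch V →+ Ch V where
  toFun c := fun B => c (ngS B)
  map_zero' := rfl
  map_add' _ _ := rfl

lemma bd_apply (c : Ch V) (B : Finset (V × Bool)) :
    bd c B = ∑ a, if a ∈ B then 0 else c (insert a B) := rfl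

omit [Fintype V] in
lemma cone_apply (a : V × Bool) (c : Ch V) (B : Finset (V × Bool)) :
    cone a c B = if a ∈ B then c (B.erase a) else 0 := rfl

omit [Fintype V] in
lemma An_apply (c : Ch V) (B : Finset (V × Bool)) : An c B = c (ngS B) := rfl

omit [Fintype V] in
@[simp] lemma An_An (c : Ch V) : An (An c) = c := by
  funext B; simp [An_apply]

lemma z2 (x : ZMod 2) : x + x = 0 := CharTwo.add_self_eq_zero x

omit [Fintype V] [LinearOrder V] in
lemma c2 (c : Ch V) : c + c = 0 := by
  funext B; exact z2 _

lemma bd_cone (a : V × Bool) (c : Ch V) : bd (cone a c) = c + cone a (bd c) := by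
  funext B
  rw [Pi.add_apply, bd_apply, cone_apply]
  by_cases ha : a ∈ B
  · rw [if_pos ha, bd_apply]
    have h1 : ∀ b, (if b ∈ B then (0 : ZMod 2) else cone a c (insert b B)) =
        (if b ∈ B.erase a then 0 else c (insert b (B.erase a))) + (if b = a then c B else 0) := by
      intro b
      by_cases hb : b ∈ B
      · rw [if_pos hb]
        by_cases hba : b = a
        · subst hba
          rw [if_neg (by simp), if_pos rfl, insert_erase hb]
          exact (z2 _).symm
        · rw [if_pos (by simp [hb, hba]), if_neg hba, add_zero]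
      · have hba : b ≠ a := fun h => hb (h ▸ ha)
        rw [if_neg hb, if_neg (by simp [hb]), if_neg hba, add_zero, cone_apply,
          if_pos (by simp [ha])]
        congr 1
        rw [erase_insert_of_ne hba]
    rw [sum_congr rfl (fun b _ => h1 b), sum_add_distrib]
    simp only [sum_ite_eq', mem_univ, if_true]
    rw [add_comm]
  · rw [if_neg ha, add_zero]
    have h1 : ∀ b, (if b ∈ B then (0 : ZMod 2) else cone a c (insert b B)) =
        if b = a then c B else 0 := by
      intro b
      by_cases hba : b = a
      · subst hba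
        rw [if_neg ha, if_pos rfl, cone_apply, if_pos (mem_insert_self _ _), erase_insert ha]
      · rw [if_neg hba]
        split_ifs with hb
        · rfl
        · rw [cone_apply, if_neg]
          rw [mem_insert]
          rintro (h | h)
          · exact hba h.symm
          · exact ha h
    rw [sum_congr rfl (fun b _ => h1 b)]
    simp

lemma bd_bd (c : Ch V) : bd (bd c) = 0 := by
  funext B
  rw [Pi.zero_apply, bd_apply]
  have h1 : ∀ a, (if a ∈ B then (0 : ZMod 2) else bd c (insert a B)) =
      ∑ b, (if a ∈ B then 0 else if b ∈ insert a B then 0 else c (insert b (insert a B))) := by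
    intro a
    split_ifs with ha
    · simp
    · rw [bd_apply]
  rw [sum_congr rfl (fun a _ => h1 a)]
  -- symmetric function with zero diagonal
  have key : ∀ (F : (V × Bool) → (V × Bool) → ZMod 2), (∀ a b, F a b = F b a) → (∀ a, F a a = 0) →
      ∑ a, ∑ b, F a b = 0 := by
    intro F hs hd
    rw [← sum_product']
    refine sum_involution (fun p _ => (p.2, p.1)) ?_ ?_ ?_ ?_
    · rintro ⟨a, b⟩ _
      simp only
      rw [hs b a]; exact z2 _
    · rintro ⟨a, b⟩ _ h0 h
      simp only [Prod.mk.injEq] at h
      apply h0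
      rw [h.1]; exact hd _
    · intro p _; simp
    · intro p _; rfl
  refine key _ ?_ ?_
  · intro a b
    by_cases ha : a ∈ B <;> by_cases hb : b ∈ B
    · simp [ha, hb]
    · simp [ha, hb]
    · simp [ha, hb]
    · by_cases hab : a = b
      · subst hab; rfl
      · have hba : b ≠ a := fun h => hab h.symm
        simp only [ha, hb, mem_insert, hab, hba, or_self, if_false]
        rw [insert_comm]
  · intro a
    split_ifs with h1 h2
    · rfl
    · rfl
    · exact absurd (mem_insert_self _ _) h2

lemma bd_An (c : Ch V) : bd (An c) = An (bd c) := by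
  funext B
  rw [An_apply, bd_apply, bd_apply]
  refine Fintype.sum_equiv (Equiv.ofBijective ng
    ⟨ng_inj, fun a => ⟨ng a, ng_ng a⟩⟩) _ _ fun a => ?_
  simp only [Equiv.ofBijective_apply]
  have h1 : (ng a ∈ ngS B) ↔ a ∈ B := by rw [mem_ngS, ng_ng]
  by_cases ha : a ∈ B
  · rw [if_pos ha, if_pos (h1.2 ha)]
  · rw [if_neg ha, if_neg (fun h => ha (h1.1 h)), An_apply, ngS_insert]

omit [Fintype V] in
lemma cone_An (a : V × Bool) (c : Ch V) : cone (ng a) (An c) = An (cone a c) := by
  funext B
  rw [An_apply, cone_apply, cone_apply]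
  have h1 : (a ∈ ngS B) ↔ ng a ∈ B := mem_ngS _ _
  by_cases ha : ng a ∈ B
  · rw [if_pos ha, if_pos (h1.2 ha), An_apply, ngS_erase, ng_ng]
  · rw [if_neg ha, if_neg (fun h => ha (h1.1 h))]

/-- supported on sets of `k + 1` labels without opposite labels -/
def Good (k : ℕ) (c : Ch V) : Prop :=
  ∀ B, c B ≠ 0 → B.card = k + 1 ∧ ∀ a ∈ B, ng a ∉ B

omit [Fintype V] [LinearOrder V] in
lemma Good.zero (k : ℕ) : Good k (0 : Ch V) := fun B h => absurd rfl h

omit [Fintype V] [LinearOrder V] in
lemma Good.add {k : ℕ} {c d : Ch V} (hc : Good k c) (hd : Good k d) : Good k (c + d) := by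
  intro B hB
  by_cases h : c B = 0
  · refine hd B fun h2 => hB ?_
    rw [Pi.add_apply, h, h2, add_zero]
  · exact hc B h

lemma Good.bd {k : ℕ} {c : Ch V} (hc : Good (k + 1) c) : Good k (bd c) := by
  intro B hB
  rw [bd_apply] at hB
  obtain ⟨a, _, ha⟩ := exists_ne_zero_of_sum_ne_zero hB
  split_ifs at ha with h
  · exact absurd rfl ha
  · obtain ⟨h1, h2⟩ := hc _ ha
    rw [card_insert_of_notMem h] at h1
    refine ⟨by omega, fun b hb hb2 => h2 b (mem_insert_of_mem hb) (mem_insert_of_mem hb2)⟩

lemma split_inv {k : ℕ} {c : Ch V} (hc : Good k c) (hT : An c = c) :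
    ∃ d, Good k d ∧ c = d + An d := by
  let e := Fintype.equivFin (Finset (V × Bool))
  refine ⟨fun B => if e B < e (ngS B) then c B else 0, ?_, ?_⟩
  · intro B hB
    simp only [ne_eq, ite_eq_right_iff, Classical.not_imp] at hB
    exact hc B hB.2
  · funext B
    rw [Pi.add_apply, An_apply]
    simp only [ngS_ngS]
    have h1 : c (ngS B) = c B := congrFun hT B
    rw [h1]
    by_cases h0 : c B = 0
    · rw [h0]; simp
    · have h2 : ngS B ≠ B := by
        intro h
        obtain ⟨h3, h4⟩ := hc B h0
        have h5 : B.Nonempty := by rw [← card_pos]; omega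
        obtain ⟨a, ha⟩ := h5
        apply h4 a ha
        rw [← mem_ngS, h]; exact ha
      have h3 : e B ≠ e (ngS B) := fun h => h2 (e.injective h).symm
      rcases lt_or_gt_of_ne h3 with h4 | h4
      · rw [if_pos h4, if_neg (not_lt.2 h4.le), add_zero]
      · rw [if_neg (not_lt.2 h4.le), if_pos h4, zero_add]

/-- The algebraic Borsuk-Ulam theorem: there is no sequence of chains `c k` with
`∂ c (k+1) = c k + A c k`, `∂ c 0 = [∅]` and `c K = 0` for some `K`. -/
theorem algBU (c : ℕ → Ch V) (K : ℕ) (hg : ∀ k, Good k (c k))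
    (hb : ∀ k, bd (c (k + 1)) = c k + An (c k)) (h0 : bd (c 0) ∅ = 1) (hK : c K = 0) : False := by
  have key : ∀ j, j ≤ K → ∃ e d, Good (K - j + 1) e ∧ Good (K - j) d ∧
      c (K - j) = bd e + d + An d := by
    intro j
    induction j with
    | zero =>
      intro _
      exact ⟨0, 0, Good.zero _, Good.zero _, by simp [hK]⟩
    | succ j ih =>
      intro hj
      obtain ⟨e, d, he, hd, hc⟩ := ih (by omega)
      have h1 : K - j = (K - (j + 1)) + 1 := by omega
      rw [h1] at hd hc he
      set r := K - (j + 1) with hr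
      have h2 : bd (c (r + 1)) = bd d + An (bd d) := by
        rw [hc, map_add, map_add, bd_bd, zero_add, bd_An]
      rw [hb r] at h2
      have h3 : An (c r + bd d) = c r + bd d := by
        rw [map_add]
        have h4 : An (c r) = c r + (c r + An (c r)) := by
          rw [← add_assoc, c2, zero_add]
        rw [h4, h2]
        have h5 : c r + (bd d + An (bd d)) + An (bd d) = c r + bd d + (An (bd d) + An (bd d)) := by
          abel
        rw [h5, c2, add_zero]
      obtain ⟨d', hd', h6⟩ := split_inv ((hg r).add hd.bd) h3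
      refine ⟨d, d', hd, hd', ?_⟩
      have h7 : c r = c r + bd d + bd d := by rw [add_assoc, c2, add_zero]
      rw [h7, h6]
      abel
  obtain ⟨e, d, _, hd, hc⟩ := key K le_rfl
  rw [Nat.sub_self] at hc
  rw [hc, map_add, map_add, bd_bd, zero_add, bd_An, Pi.add_apply, An_apply, ngS_empty, z2] at h0
  exact zero_ne_one h0

end Pool.Agent.J4.H8.TT
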