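import Pool.Agent.J4.H8.TT.Chain

set_option autoImplicit false

/-!
# Faces of the cube, facets, and the chains `S m k` with `∂ S (k+1) = S k + A S k`
-/

open Finset

namespace Pool.Agent.J4.H8.TT

/-- a face of the cube: `none` = free coordinate -/
abbrev Face (m : ℕ) := Fin m → Option Bool

/-- the free coordinates -/
def fr {m : ℕ} (σ : Face m) : Finset (Fin m) := univ.filter (fun i => σ i = none)

/-- the opposite face -/
def Tf {m : ℕ} (σ : Face m) : Face m := fun i => (σ i).map (fun b => !b)

lemma mem_fr {m : ℕ} (σ : Face m) (i : Fin m) : i ∈ fr σ ↔ σ i = none := by simp [fr]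

@[simp] lemma Tf_Tf {m : ℕ} (σ : Face m) : Tf (Tf σ) = σ := by
  funext i
  unfold Tf
  cases h : σ i <;> simp

lemma fr_Tf {m : ℕ} (σ : Face m) : fr (Tf σ) = fr σ := by
  ext i
  rw [mem_fr, mem_fr]
  unfold Tf
  simp

lemma fr_update {m : ℕ} (σ : Face m) (i : Fin m) (b : Bool) :
    fr (Function.update σ i (some b)) = (fr σ).erase i := by
  ext j
  rw [mem_fr, mem_erase, mem_fr]
  by_cases h : j = i
  · subst h; simp
  · simp [Function.update_of_ne h, h]

lemma card_fr_update {m : ℕ} (σ : Face m) (i : Fin m) (b : Bool) (hi : σ i = none) :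
    (fr (Function.update σ i (some b))).card = (fr σ).card - 1 := by
  rw [fr_update, card_erase_of_mem ((mem_fr _ _).2 hi)]

lemma Tf_update {m : ℕ} (σ : Face m) (i : Fin m) (b : Bool) :
    Tf (Function.update σ i (some b)) = Function.update (Tf σ) i (some (!b)) := by
  funext j
  by_cases h : j = i
  · subst h; simp [Tf]
  · simp [Tf, Function.update_of_ne h]

variable {M : Type} [AddCommMonoid M]

/-- the sum over the facets -/
def fac {m : ℕ} (G : Face m → M) (σ : Face m) : M :=
  ∑ i, ∑ b : Bool, if σ i = none then G (Function.update σ i (some b)) else 0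

lemma fac_congr {m : ℕ} {G G' : Face m → M} {σ : Face m}
    (h : ∀ i b, σ i = none → G (Function.update σ i (some b)) = G' (Function.update σ i (some b))) :
    fac G σ = fac G' σ := by
  unfold fac
  refine sum_congr rfl fun i _ => sum_congr rfl fun b _ => ?_
  split_ifs with h1
  · exact h i b h1
  · rfl

lemma fac_zero' {m : ℕ} {G : Face m → M} {σ : Face m} (h : (fr σ).card = 0) : fac G σ = 0 := by
  unfold fac
  refine sum_eq_zero fun i _ => sum_eq_zero fun b _ => ?_
  rw [if_neg]
  intro hi
  rw [card_eq_zero] at h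
  have := (mem_fr σ i).2 hi
  rw [h] at this
  exact absurd this (notMem_empty _)

lemma fac_comp {m : ℕ} {N : Type} [AddCommMonoid N] (f : M →+ N) (G : Face m → M) (σ : Face m) :
    f (fac G σ) = fac (fun τ => f (G τ)) σ := by
  unfold fac
  rw [map_sum]
  refine sum_congr rfl fun i _ => ?_
  rw [map_sum]
  refine sum_congr rfl fun b _ => ?_
  split_ifs <;> simp

lemma fac_Tf {m : ℕ} (G : Face m → M) (σ : Face m) :
    fac G (Tf σ) = fac (fun τ => G (Tf τ)) σ := by
  unfold fac
  refine sum_congr rfl fun i _ => ?_
  have h1 : (Tf σ i = none) ↔ σ i = none := by unfold Tf; simp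
  by_cases h : σ i = none
  · rw [Fintype.sum_bool, Fintype.sum_bool, if_pos (h1.2 h), if_pos (h1.2 h), if_pos h, if_pos h]
    simp only [Tf_update, Bool.not_true, Bool.not_false]
    rw [add_comm]
  · rw [Fintype.sum_bool, Fintype.sum_bool, if_neg (fun h2 => h (h1.1 h2)),
      if_neg (fun h2 => h (h1.1 h2)), if_neg h, if_neg h]

lemma fac_fac {m : ℕ} (hM : ∀ x : M, x + x = 0) (G : Face m → M) (σ : Face m) :
    fac (fun τ => fac G τ) σ = 0 := by
  unfold fac
  have h1 : ∀ i : Fin m, ∀ b : Bool,
      (if σ i = none then ∑ j, ∑ b' : Bool, (if Function.update σ i (some b) j = none then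
        G (Function.update (Function.update σ i (some b)) j (some b')) else 0) else 0) =
      ∑ q : Fin m × Bool, (if σ i = none then (if Function.update σ i (some b) q.1 = none then
        G (Function.update (Function.update σ i (some b)) q.1 (some q.2)) else 0) else 0) := by
    intro i b
    rw [Fintype.sum_prod_type]
    split_ifs
    · rfl
    · simp
  rw [sum_congr rfl (fun i _ => sum_congr rfl (fun b _ => h1 i b))]
  have h2 := Fintype.sum_prod_type (fun p : Fin m × Bool => ∑ q : Fin m × Bool,
      (if σ p.1 = none then (if Function.update σ p.1 (some p.2) q.1 = none then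
        G (Function.update (Function.update σ p.1 (some p.2)) q.1 (some q.2)) else 0) else 0))
  simp only at h2
  rw [← h2]
  have key : ∀ (F : (Fin m × Bool) → (Fin m × Bool) → M), (∀ a b, F a b = F b a) →
      (∀ a, F a a = 0) → ∑ a, ∑ b, F a b = 0 := by
    intro F hs hd
    rw [← sum_product']
    refine sum_involution (fun p _ => (p.2, p.1)) ?_ ?_ ?_ ?_
    · rintro ⟨a, b⟩ _
      simp only
      rw [hs b a]; exact hM _
    · rintro ⟨a, b⟩ _ h0 h
      simp only [Prod.mk.injEq] at h
      apply h0
      rw [h.1]; exact hd _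
    · intro p _; simp
    · intro p _; rfl
  refine key _ ?_ ?_
  · rintro ⟨i, b⟩ ⟨j, b'⟩
    simp only
    by_cases hij : i = j
    · subst hij
      by_cases hi : σ i = none <;> simp [hi]
    · have hji : j ≠ i := fun h => hij h.symm
      rw [Function.update_of_ne hji, Function.update_of_ne hij, Function.update_comm hij]
      by_cases hi : σ i = none <;> by_cases hj : σ j = none <;> simp [hi, hj]
  · rintro ⟨i, b⟩
    simp

lemma fac_cons_some {m : ℕ} (G : Face (m + 1) → M) (b : Bool) (σ : Face m) :
    fac G (Fin.cons (some b) σ : Face (m + 1)) =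
      fac (fun τ : Face m => G (Fin.cons (some b) τ : Face (m + 1))) σ := by
  unfold fac
  rw [Fin.sum_univ_succ]
  have h0 : (∑ b' : Bool, if (Fin.cons (some b) σ : Face (m + 1)) 0 = none then
      G (Function.update (Fin.cons (some b) σ : Face (m + 1)) 0 (some b')) else 0) = 0 := by
    simp
  rw [h0, zero_add]
  refine sum_congr rfl fun i _ => sum_congr rfl fun b' _ => ?_
  simp only [Fin.cons_succ, Fin.cons_update]

lemma fac_cons_none {m : ℕ} (G : Face (m + 1) → M) (σ : Face m) :
    fac G (Fin.cons none σ : Face (m + 1)) =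
      fac (fun τ : Face m => G (Fin.cons none τ : Face (m + 1))) σ +
        (G (Fin.cons (some true) σ : Face (m + 1)) + G (Fin.cons (some false) σ : Face (m + 1))) := by
  unfold fac
  rw [Fin.sum_univ_succ, add_comm]
  congr 1
  · refine sum_congr rfl fun i _ => sum_congr rfl fun b' _ => ?_
    simp only [Fin.cons_succ, Fin.cons_update]
  · rw [Fintype.sum_bool]
    simp only [Fin.cons_zero, if_true, Fin.update_cons_zero]

lemma Tf_cons {m : ℕ} (ε : Option Bool) (σ : Face m) :
    Tf (Fin.cons ε σ : Face (m + 1)) = (Fin.cons (ε.map (fun b => !b)) (Tf σ) : Face (m + 1)) := by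
  funext i
  refine Fin.cases ?_ (fun j => ?_) i
  · simp [Tf]
  · simp [Tf]

lemma card_fr_cons_some {m : ℕ} (b : Bool) (σ : Face m) :
    (fr (Fin.cons (some b) σ : Face (m + 1))).card = (fr σ).card := by
  unfold fr
  rw [card_filter, card_filter, Fin.sum_univ_succ]
  simp

lemma card_fr_cons_none {m : ℕ} (σ : Face m) :
    (fr (Fin.cons none σ : Face (m + 1))).card = (fr σ).card + 1 := by
  unfold fr
  rw [card_filter, card_filter, Fin.sum_univ_succ]
  simp [add_comm]

/-- the sums over the faces with `k` free coordinates and alternating fixed blocks -/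
def Sm {M : Type} [AddCommMonoid M] : (m : ℕ) → (k : ℕ) → (Face m → M) → M
  | 0, 0, G => G (fun i => i.elim0)
  | 0, (_ + 1), _ => 0
  | (m + 1), 0, G => Sm m 0 (fun σ => G (Fin.cons (some true) σ))
  | (m + 1), (k + 1), G => Sm m (k + 1) (fun σ => G (Fin.cons (some true) σ)) +
      Sm m k (fun σ => G (Fin.cons none (Tf σ)))

lemma Sm_congr : ∀ (m k : ℕ) {G G' : Face m → M}, (∀ σ, (fr σ).card = k → G σ = G' σ) →
    Sm m k G = Sm m k G' := by
  intro m
  induction m with
  | zero =>
    intro k G G' h
    cases k with
    | zero => exact h _ (by simp [fr])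
    | succ k => rfl
  | succ m ih =>
    intro k G G' h
    cases k with
    | zero =>
      exact ih 0 fun σ hσ => h _ (by rw [card_fr_cons_some, hσ])
    | succ k =>
      refine congrArg₂ (· + ·) (ih (k + 1) fun σ hσ => h _ (by rw [card_fr_cons_some, hσ]))
        (ih k fun σ hσ => h _ (by rw [card_fr_cons_none, fr_Tf, hσ]))

lemma Sm_comp {N : Type} [AddCommMonoid N] (f : M →+ N) : ∀ (m k : ℕ) (G : Face m → M),
    f (Sm m k G) = Sm m k (fun σ => f (G σ)) := by
  intro m
  induction m with
  | zero =>
    intro k G
    cases k with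
    | zero => rfl
    | succ k => exact map_zero f
  | succ m ih =>
    intro k G
    cases k with
    | zero => exact ih 0 _
    | succ k =>
      simp only [Sm, map_add]
      rw [ih (k + 1), ih k]

lemma Sm_zero : ∀ (m k : ℕ), Sm m k (fun _ : Face m => (0 : M)) = 0 := by
  intro m
  induction m with
  | zero =>
    intro k
    cases k with
    | zero => rfl
    | succ k => rfl
  | succ m ih =>
    intro k
    cases k with
    | zero => exact ih 0
    | succ k =>
      simp only [Sm]
      rw [ih (k + 1), ih k, add_zero]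

lemma Sm_add : ∀ (m k : ℕ) (G G' : Face m → M),
    Sm m k (fun σ => G σ + G' σ) = Sm m k G + Sm m k G' := by
  intro m
  induction m with
  | zero =>
    intro k G G'
    cases k with
    | zero => rfl
    | succ k => exact (add_zero _).symm
  | succ m ih =>
    intro k G G'
    cases k with
    | zero => exact ih 0 _ _
    | succ k =>
      simp only [Sm]
      rw [ih (k + 1), ih k]
      exact add_add_add_comm _ _ _ _

lemma Sm_const : ∀ (m : ℕ) (x : M), Sm m 0 (fun _ : Face m => x) = x := by
  intro m
  induction m with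
  | zero => intro x; rfl
  | succ m ih => intro x; exact ih x

lemma Sm_big (m k : ℕ) (hk : m < k) (G : Face m → M) : Sm m k G = 0 := by
  rw [← Sm_zero m k]
  refine Sm_congr m k fun σ hσ => ?_
  exfalso
  have h1 : (fr σ).card ≤ (univ : Finset (Fin m)).card := card_le_card (subset_univ _)
  rw [card_univ, Fintype.card_fin] at h1
  omega

/-- a predicate closed under addition and satisfied on the faces of dimension `k` -/
lemma Sm_pred (P : M → Prop) (h0 : P 0) (ha : ∀ x y, P x → P y → P (x + y)) :
    ∀ (m k : ℕ) (G : Face m → M), (∀ σ, (fr σ).card = k → P (G σ)) → P (Sm m k G) := by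
  intro m
  induction m with
  | zero =>
    intro k G h
    cases k with
    | zero => exact h _ (by simp [fr])
    | succ k => exact h0
  | succ m ih =>
    intro k G h
    cases k with
    | zero => exact ih 0 _ fun σ hσ => h _ (by rw [card_fr_cons_some, hσ])
    | succ k =>
      exact ha _ _ (ih (k + 1) _ fun σ hσ => h _ (by rw [card_fr_cons_some, hσ]))
        (ih k _ fun σ hσ => h _ (by rw [card_fr_cons_none, fr_Tf, hσ]))

theorem Sm_bd (hM : ∀ x : M, x + x = 0) : ∀ (m k : ℕ) (G : Face m → M),
    Sm m (k + 1) (fac G) = Sm m k G + Sm m k (fun σ => G (Tf σ)) := by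
  intro m
  induction m with
  | zero =>
    intro k G
    cases k with
    | zero =>
      change (0 : M) = G _ + G _
      have h1 : (Tf (fun i => i.elim0 : Face 0)) = (fun i => i.elim0 : Face 0) := by
        funext i; exact i.elim0
      rw [h1, hM]
    | succ k => exact (add_zero (0 : M)).symm
  | succ m ih =>
    intro k G
    have e1 : Sm m (k + 1) (fun σ => fac G (Fin.cons (some true) σ : Face (m + 1))) =
        Sm m k (fun σ => G (Fin.cons (some true) σ : Face (m + 1))) +
          Sm m k (fun σ => G (Fin.cons (some true) (Tf σ) : Face (m + 1))) := by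
      rw [← ih k (fun σ => G (Fin.cons (some true) σ : Face (m + 1)))]
      exact Sm_congr m (k + 1) fun σ _ => fac_cons_some G true σ
    have e2 : Sm m k (fun σ => fac G (Fin.cons none (Tf σ) : Face (m + 1))) =
        Sm m k (fac (fun σ => G (Fin.cons none (Tf σ) : Face (m + 1)))) +
          (Sm m k (fun σ => G (Fin.cons (some true) (Tf σ) : Face (m + 1))) +
           Sm m k (fun σ => G (Fin.cons (some false) (Tf σ) : Face (m + 1)))) := by
      rw [← Sm_add, ← Sm_add]
      refine Sm_congr m k fun σ _ => ?_
      rw [fac_cons_none, fac_Tf]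
    have e3 : Sm (m + 1) (k + 1) (fac G) =
        Sm m k (fac (fun σ => G (Fin.cons none (Tf σ) : Face (m + 1)))) +
        (Sm m k (fun σ => G (Fin.cons (some true) σ : Face (m + 1))) +
           Sm m k (fun σ => G (Fin.cons (some false) (Tf σ) : Face (m + 1)))) := by
      have : Sm (m + 1) (k + 1) (fac G) =
        Sm m (k + 1) (fun σ => fac G (Fin.cons (some true) σ : Face (m + 1))) +
        Sm m k (fun σ => fac G (Fin.cons none (Tf σ) : Face (m + 1))) := rfl
      rw [this, e1, e2]
      set a := Sm m k (fun σ => G (Fin.cons (some true) σ : Face (m + 1)))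
      set b := Sm m k (fun σ => G (Fin.cons (some true) (Tf σ) : Face (m + 1)))
      set c := Sm m k (fac (fun σ => G (Fin.cons none (Tf σ) : Face (m + 1))))
      set d := Sm m k (fun σ => G (Fin.cons (some false) (Tf σ) : Face (m + 1)))
      have : a + b + (c + (b + d)) = c + (a + d) + (b + b) := by abel
      rw [this, hM, add_zero]
    rw [e3]
    cases k with
    | zero =>
      have h1 : Sm m 0 (fac (fun σ => G (Fin.cons none (Tf σ) : Face (m + 1)))) = 0 := by
        rw [← Sm_zero (M := M) m 0]
        exact Sm_congr m 0 fun σ hσ => fac_zero' hσ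
      rw [h1, zero_add]
      have h2 : Sm (m + 1) 0 G = Sm m 0 (fun σ => G (Fin.cons (some true) σ : Face (m + 1))) := rfl
      have h3 : Sm (m + 1) 0 (fun σ => G (Tf σ)) =
          Sm m 0 (fun σ => G (Tf (Fin.cons (some true) σ : Face (m + 1)))) := rfl
      rw [h2, h3]
      congr 1
      refine Sm_congr m 0 fun σ _ => ?_
      rw [Tf_cons]; rfl
    | succ k =>
      rw [ih k]
      have h2 : Sm (m + 1) (k + 1) G =
        Sm m (k + 1) (fun σ => G (Fin.cons (some true) σ : Face (m + 1))) +
          Sm m k (fun σ => G (Fin.cons none (Tf σ) : Face (m + 1))) := rfl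
      have h3 : Sm (m + 1) (k + 1) (fun σ => G (Tf σ)) =
          Sm m (k + 1) (fun σ => G (Tf (Fin.cons (some true) σ : Face (m + 1)))) +
          Sm m k (fun σ => G (Tf (Fin.cons none (Tf σ) : Face (m + 1)))) := rfl
      have h4 : Sm m (k + 1) (fun σ => G (Tf (Fin.cons (some true) σ : Face (m + 1)))) =
          Sm m (k + 1) (fun σ => G (Fin.cons (some false) (Tf σ) : Face (m + 1))) := by
        refine Sm_congr m (k + 1) fun σ _ => ?_
        rw [Tf_cons]; rfl
      have h5 : Sm m k (fun σ => G (Tf (Fin.cons none (Tf σ) : Face (m + 1)))) =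
          Sm m k (fun σ => G (Fin.cons none (Tf (Tf σ)) : Face (m + 1))) := by
        refine Sm_congr m k fun σ _ => ?_
        rw [Tf_cons]; rfl
      rw [h2, h3, h4, h5]
      abel

end Pool.Agent.J4.H8.TT
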