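import Pool.Agent.J4.H8.TT.Face

set_option autoImplicit false

/-!
# A cubical Tucker lemma with a count of the complementary labels of a face

For every labelling of the vertices of the cube `{0,1}^m` by signed labels `V × {±}` which takes
antipodal points to opposite labels there is a face of some dimension `k ≥ 1` whose set of labels is
closed under change of sign and contains at least `k` pairs of opposite labels.
-/

open Finset

namespace Pool.Agent.J4.H8.TT

variable {V : Type} [Fintype V] [LinearOrder V]

/-- labels whose opposite is missing -/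
def lone (L : Finset (V × Bool)) : Finset V :=
  univ.filter (fun v => ¬ ((v, true) ∈ L ↔ (v, false) ∈ L))

/-- auxiliary -/
def apexOf (s : Finset V) (L : Finset (V × Bool)) : Option (V × Bool) :=
  if h : s.Nonempty then some (s.min' h, decide ((s.min' h, true) ∈ L)) else none

/-- the apex: the first label whose opposite is missing -/
def apex (L : Finset (V × Bool)) : Option (V × Bool) := apexOf (lone L) L

lemma lone_ngS (L : Finset (V × Bool)) : lone (ngS L) = lone L := by
  unfold lone
  refine filter_congr fun v _ => ?_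
  rw [mem_ngS, mem_ngS]
  simp only [ng, Bool.not_true, Bool.not_false]
  rw [not_iff_not]
  exact Iff.comm

lemma apex_some {L : Finset (V × Bool)} {a : V × Bool} (h : apex L = some a) :
    a ∈ L ∧ ng a ∉ L := by
  unfold apex apexOf at h
  split_ifs at h with h1
  · have h2 := min'_mem _ h1
    set v := (lone L).min' h1 with hv
    rw [Option.some.injEq] at h
    subst h
    unfold lone at h2
    rw [mem_filter] at h2
    by_cases h3 : (v, true) ∈ L
    · simp only [h3, decide_true, ng, Bool.not_true]
      exact ⟨trivial, fun h4 => h2.2 ⟨fun _ => h4, fun _ => h3⟩⟩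
    · simp only [h3, decide_false, ng, Bool.not_false]
      refine ⟨?_, fun h => h⟩
      by_contra h4
      exact h2.2 ⟨fun h => absurd h h3, fun h => absurd h h4⟩

lemma apex_none {L : Finset (V × Bool)} (h : apex L = none) (a : V × Bool) (ha : a ∈ L) :
    ng a ∈ L := by
  unfold apex apexOf at h
  split_ifs at h with h1
  rw [not_nonempty_iff_eq_empty] at h1
  have h2 : a.1 ∉ lone L := by rw [h1]; exact notMem_empty _
  unfold lone at h2
  simp only [mem_filter, mem_univ, true_and, not_not] at h2
  rcases a with ⟨v, b⟩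
  cases b
  · exact h2.2 ha
  · exact h2.1 ha

lemma apex_ngS (L : Finset (V × Bool)) : apex (ngS L) = (apex L).map ng := by
  unfold apex
  rw [lone_ngS]
  unfold apexOf
  split_ifs with h1
  · have h2 := min'_mem _ h1
    set v := (lone L).min' h1 with hv
    unfold lone at h2
    rw [mem_filter] at h2
    simp only [Option.map_some, ng]
    congr 2
    have h3 : ((v, true) ∈ ngS L) ↔ ¬ ((v, true) ∈ L) := by
      rw [mem_ngS]
      simp only [ng, Bool.not_true]
      constructor
      · intro h4 h5
        exact h2.2 ⟨fun _ => h4, fun _ => h5⟩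
      · intro h4
        by_contra h5
        exact h2.2 ⟨fun h => absurd h h4, fun h => absurd h h5⟩
    rw [← decide_not]
    exact decide_eq_decide.2 h3
  · rfl

/-- cone with optional apex (`0` if there is none) -/
def coneo : Option (V × Bool) → (Ch V →+ Ch V)
  | none => 0
  | some a => cone a

omit [Fintype V] in
lemma coneo_An (o : Option (V × Bool)) (c : Ch V) :
    coneo (o.map ng) (An c) = An (coneo o c) := by
  cases o with
  | none => exact (map_zero An).symm
  | some a => exact cone_An a c

section
variable {m : ℕ} (lam : (Fin m → Bool) → V × Bool)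

/-- `x` is a vertex of the face `σ` -/
def vt (σ : Face m) (x : Fin m → Bool) : Prop := ∀ i b, σ i = some b → x i = b

open Classical in
/-- the labels of the vertices of a face -/
noncomputable def labs (σ : Face m) : Finset (V × Bool) :=
  (univ.filter (fun x => vt σ x)).image lam

omit [Fintype V] in
lemma mem_labs (σ : Face m) (a : V × Bool) : a ∈ labs lam σ ↔ ∃ x, vt σ x ∧ lam x = a := by
  classical
  unfold labs
  simp

omit [Fintype V] in
lemma labs_Tf (hl : ∀ x, lam (fun i => !x i) = ng (lam x)) (σ : Face m) :
    labs lam (Tf σ) = ngS (labs lam σ) := by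
  ext a
  rw [mem_ngS, mem_labs, mem_labs]
  have key : ∀ τ : Face m, ∀ x, vt τ x → vt (Tf τ) (fun i => !x i) := by
    intro τ x hx i b hb
    unfold Tf at hb
    rw [Option.map_eq_some_iff] at hb
    obtain ⟨c, hc, rfl⟩ := hb
    simp only
    rw [hx i c hc]
  constructor
  · rintro ⟨x, hx, rfl⟩
    refine ⟨fun i => !x i, ?_, hl x⟩
    have := key _ x hx
    rwa [Tf_Tf] at this
  · rintro ⟨x, hx, h⟩
    refine ⟨fun i => !x i, key _ x hx, ?_⟩
    rw [hl, h, ng_ng]

omit [Fintype V] in
lemma labs_update (σ : Face m) (i : Fin m) (b : Bool) (hi : σ i = none) :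
    labs lam (Function.update σ i (some b)) ⊆ labs lam σ := by
  intro a
  rw [mem_labs, mem_labs]
  rintro ⟨x, hx, h⟩
  refine ⟨x, fun j c hc => ?_, h⟩
  by_cases hj : j = i
  · subst hj; rw [hi] at hc; exact absurd hc (by simp)
  · exact hx j c (by rw [Function.update_of_ne hj]; exact hc)

/-- the chain map -/
noncomputable def phi : ℕ → Face m → Ch V
  | 0, σ => Pi.single {lam (fun i => (σ i).getD true)} 1
  | (k + 1), σ => coneo (apex (labs lam σ)) (fac (phi k) σ)

/-- pairs of opposite labels -/
def both (L : Finset (V × Bool)) : Finset V := univ.filter (fun v => (v, true) ∈ L ∧ (v, false) ∈ L)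

lemma fac_ne {M : Type} [AddCommMonoid M] {G : Face m → Finset (V × Bool) → M} {σ : Face m}
    {B : Finset (V × Bool)} (h : fac G σ B ≠ 0) :
    ∃ i b, σ i = none ∧ G (Function.update σ i (some b)) B ≠ 0 := by
  unfold fac at h
  rw [Finset.sum_apply] at h
  obtain ⟨i, _, hi⟩ := exists_ne_zero_of_sum_ne_zero h
  rw [Finset.sum_apply] at hi
  obtain ⟨b, _, hb⟩ := exists_ne_zero_of_sum_ne_zero hi
  split_ifs at hb with h1
  · exact ⟨i, b, h1, hb⟩
  · exact absurd rfl hb

lemma phi_supp : ∀ (k : ℕ) (σ : Face m), (fr σ).card = k → ∀ B, phi lam k σ B ≠ 0 →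
    B ⊆ labs lam σ ∧ B.card = k + 1 ∧ ∀ a ∈ B, ng a ∉ B := by
  intro k
  induction k with
  | zero =>
    intro σ hσ B hB
    unfold phi at hB
    have h1 : B = {lam (fun i => (σ i).getD true)} := by
      by_contra h
      exact hB (Pi.single_eq_of_ne h _)
    subst h1
    refine ⟨?_, card_singleton _, ?_⟩
    · intro a ha
      rw [mem_singleton] at ha
      rw [mem_labs]
      refine ⟨_, ?_, ha.symm⟩
      intro i b hb
      simp [hb]
    · intro a ha h2
      rw [mem_singleton] at ha h2
      rw [ha] at h2
      exact ng_ne _ h2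
  | succ k ih =>
    intro σ hσ B hB
    have hf : ∀ B', fac (phi lam k) σ B' ≠ 0 → B' ⊆ labs lam σ ∧ B'.card = k + 1 ∧
        ∀ a ∈ B', ng a ∉ B' := by
      intro B' hB'
      obtain ⟨i, b, hi, hb⟩ := fac_ne hB'
      obtain ⟨h1, h2⟩ := ih _ (by rw [card_fr_update _ _ _ hi, hσ]; rfl) B' hb
      exact ⟨h1.trans (labs_update lam σ i b hi), h2⟩
    have h0 : phi lam (k + 1) σ = coneo (apex (labs lam σ)) (fac (phi lam k) σ) := rfl
    rw [h0] at hB
    cases ha : apex (labs lam σ) with
    | none => rw [ha] at hB; exact absurd rfl hB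
    | some a =>
      obtain ⟨ha1, ha2⟩ := apex_some ha
      rw [ha] at hB
      change cone a _ B ≠ 0 at hB
      rw [cone_apply] at hB
      split_ifs at hB with h1
      · obtain ⟨h2, h3, h4⟩ := hf _ hB
        have hBe : B = insert a (B.erase a) := (insert_erase h1).symm
        refine ⟨?_, ?_, ?_⟩
        · rw [hBe]
          exact insert_subset ha1 h2
        · rw [card_erase_of_mem h1] at h3
          have := card_pos.2 ⟨a, h1⟩
          omega
        · intro b hb hb2
          have hnb : ng a ∉ B := by
            intro h5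
            have h6 : ng a ∈ B.erase a := mem_erase.2 ⟨ng_ne a, h5⟩
            exact ha2 (h2 h6)
          by_cases hba : b = a
          · subst hba; exact hnb hb2
          · have h5 : b ∈ B.erase a := mem_erase.2 ⟨hba, hb⟩
            have h6 : ng b ≠ a := by
              intro h; rw [← h, ng_ng] at hnb; exact hnb hb
            exact h4 b h5 (mem_erase.2 ⟨h6, hb2⟩)
      · exact absurd rfl hB

omit m lam in
lemma bd_single (a : V × Bool) : bd (Pi.single {a} 1 : Ch V) = (Pi.single ∅ 1 : Ch V) := by
  funext B
  rw [bd_apply]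
  have h2 : ∀ c, (if c ∈ B then (0 : ZMod 2) else
      (Pi.single ({a} : Finset (V × Bool)) (1 : ZMod 2) : Ch V) (insert c B)) =
      if c = a then (if B = ∅ then 1 else 0) else 0 := by
    intro c
    by_cases hc : c ∈ B
    · rw [if_pos hc]
      split_ifs with h3 h4
      · rw [h4] at hc; exact absurd hc (notMem_empty _)
      · rfl
      · rfl
    · rw [if_neg hc, Pi.single_apply]
      by_cases hca : c = a
      · rw [if_pos hca]
        have h3 : (insert c B = {a}) ↔ B = ∅ := by
          constructor
          · intro h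
            by_contra h4
            obtain ⟨y, hy⟩ := nonempty_iff_ne_empty.2 h4
            have h5 : y ∈ ({a} : Finset (V × Bool)) := by
              rw [← h]; exact mem_insert_of_mem hy
            rw [mem_singleton, ← hca] at h5
            exact hc (h5 ▸ hy)
          · intro h; rw [h, hca]; rfl
        by_cases hB : B = ∅
        · rw [if_pos (h3.2 hB), if_pos hB]
        · rw [if_neg (fun h => hB (h3.1 h)), if_neg hB]
      · rw [if_neg hca, if_neg]
        intro h
        have h5 : c ∈ ({a} : Finset (V × Bool)) := by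
          rw [← h]; exact mem_insert_self _ _
        rw [mem_singleton] at h5
        exact hca h5
  rw [sum_congr rfl (fun c _ => h2 c)]
  simp [Pi.single_apply]

lemma fac_eq_zero {k : ℕ} {σ : Face m} (hσ : (fr σ).card = k + 1)
    (ha : apex (labs lam σ) = none) (hb : (both (labs lam σ)).card < (fr σ).card) :
    fac (phi lam k) σ = 0 := by
  funext B
  by_contra hB
  obtain ⟨i, b, hi, hb2⟩ := fac_ne hB
  obtain ⟨h1, h2, h3⟩ := phi_supp lam k _ (by rw [card_fr_update _ _ _ hi, hσ]; rfl) B hb2
  have h4 := h1.trans (labs_update lam σ i b hi)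
  have h5 : (B.image Prod.fst).card = B.card := by
    refine card_image_of_injOn ?_
    rintro ⟨v, c⟩ hv ⟨w, d⟩ hw h
    simp only at h
    subst h
    by_cases hcd : c = d
    · rw [hcd]
    · exfalso
      have h6 : d = !c := by cases c <;> cases d <;> simp_all
      refine h3 (v, c) hv ?_
      rw [h6] at hw
      exact hw
  have h6 : B.image Prod.fst ⊆ both (labs lam σ) := by
    intro v hv
    rw [mem_image] at hv
    obtain ⟨⟨w, c⟩, hw, rfl⟩ := hv
    unfold both
    rw [mem_filter]
    have h7 := h4 hw
    have h8 := apex_none ha _ h7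
    simp only [ng] at h8
    cases c
    · exact ⟨mem_univ _, h8, h7⟩
    · exact ⟨mem_univ _, h7, h8⟩
  have h7 := card_le_card h6
  omega

lemma phi_bd (H : ∀ σ : Face m, 1 ≤ (fr σ).card → apex (labs lam σ) = none →
      (both (labs lam σ)).card < (fr σ).card) :
    ∀ (k : ℕ) (σ : Face m), (fr σ).card = k + 1 → bd (phi lam (k + 1) σ) = fac (phi lam k) σ := by
  intro k
  have step : ∀ k : ℕ, ∀ σ : Face m, (fr σ).card = k + 1 → bd (fac (phi lam k) σ) = 0 →
      bd (phi lam (k + 1) σ) = fac (phi lam k) σ := by
    intro k σ hσ hcyc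
    have h0 : phi lam (k + 1) σ = coneo (apex (labs lam σ)) (fac (phi lam k) σ) := rfl
    rw [h0]
    cases ha : apex (labs lam σ) with
    | none =>
      rw [fac_eq_zero lam hσ ha (H σ (by omega) ha)]
      simp
    | some a =>
      change bd (cone a _) = _
      rw [bd_cone, hcyc, map_zero, add_zero]
  induction k with
  | zero =>
    intro σ hσ
    refine step 0 σ hσ ?_
    rw [fac_comp]
    unfold fac
    refine sum_eq_zero fun i _ => ?_
    rw [Fintype.sum_bool]
    by_cases hi : σ i = none
    · rw [if_pos hi, if_pos hi]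
      unfold phi
      simp only [bd_single]
      exact c2 _
    · rw [if_neg hi, if_neg hi, add_zero]
  | succ k ih =>
    intro σ hσ
    refine step (k + 1) σ hσ ?_
    rw [fac_comp]
    rw [← fac_fac (fun x : Ch V => c2 x) (phi lam k) σ]
    refine fac_congr fun i b hi => ?_
    exact ih _ (by rw [card_fr_update _ _ _ hi, hσ]; rfl)

lemma phi_An (hl : ∀ x, lam (fun i => !x i) = ng (lam x)) :
    ∀ (k : ℕ) (σ : Face m), (fr σ).card = k → phi lam k (Tf σ) = An (phi lam k σ) := by
  intro k
  induction k with
  | zero =>
    intro σ hσ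
    unfold phi
    have h1 : (fun i => (Tf σ i).getD true) = fun i => !((σ i).getD true) := by
      funext i
      have h2 : σ i ≠ none := by
        intro h
        have h3 := (mem_fr σ i).2 h
        rw [card_eq_zero] at hσ
        rw [hσ] at h3
        exact absurd h3 (notMem_empty _)
      obtain ⟨b, hb⟩ := Option.ne_none_iff_exists'.1 h2
      unfold Tf
      rw [hb]
      rfl
    rw [h1, hl]
    funext B
    rw [An_apply, Pi.single_apply, Pi.single_apply]
    have h3 : (B = {ng (lam fun i => (σ i).getD true)}) ↔
        ngS B = {lam fun i => (σ i).getD true} := by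
      constructor
      · intro h; rw [h]; simp [ngS]
      · intro h
        rw [← ngS_ngS B, h]; simp [ngS]
    by_cases hB : ngS B = {lam fun i => (σ i).getD true}
    · rw [if_pos hB, if_pos (h3.2 hB)]
    · rw [if_neg hB, if_neg (fun h => hB (h3.1 h))]
  | succ k ih =>
    intro σ hσ
    have h0 : ∀ τ : Face m, phi lam (k + 1) τ = coneo (apex (labs lam τ)) (fac (phi lam k) τ) :=
      fun _ => rfl
    have h1 : fac (fun τ => phi lam k (Tf τ)) σ = An (fac (phi lam k) σ) := by
      rw [fac_comp]
      exact fac_congr fun i b hi => ih _ (by rw [card_fr_update _ _ _ hi, hσ]; rfl)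
    rw [h0, h0, labs_Tf lam hl, apex_ngS, fac_Tf, h1, coneo_An]

/-- **A cubical Tucker lemma.** For every antipodal labelling there is a face of dimension `k ≥ 1`
whose set of labels is closed under change of sign and contains at least `k` pairs. -/
theorem tucker (hl : ∀ x, lam (fun i => !x i) = ng (lam x)) :
    ∃ σ : Face m, 1 ≤ (fr σ).card ∧ (∀ a ∈ labs lam σ, ng a ∈ labs lam σ) ∧
      (fr σ).card ≤ (both (labs lam σ)).card := by
  by_contra hcon
  push Not at hcon
  have H : ∀ σ : Face m, 1 ≤ (fr σ).card → apex (labs lam σ) = none →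
      (both (labs lam σ)).card < (fr σ).card := by
    intro σ h1 h2
    exact hcon σ h1 fun a ha => apex_none h2 a ha
  refine algBU (fun k => Sm m k (phi lam k)) (m + 1) ?_ ?_ ?_ ?_
  · intro k
    have h1 : ∀ σ : Face m, (fr σ).card = k → Good k (phi lam k σ) :=
      fun σ hσ B hB => (phi_supp lam k σ hσ B hB).2
    exact Sm_pred (M := Ch V) (fun c : Ch V => Good k c) (Good.zero k)
      (fun x y hx hy => Good.add hx hy) m k (phi lam k) h1
  · intro k
    rw [Sm_comp, Sm_comp]
    have h1 : Sm m (k + 1) (fun σ => bd (phi lam (k + 1) σ)) = Sm m (k + 1) (fac (phi lam k)) :=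
      Sm_congr m (k + 1) fun σ hσ => phi_bd lam H k σ hσ
    rw [h1, Sm_bd (fun x : Ch V => c2 x)]
    congr 1
    exact Sm_congr m k fun σ hσ => phi_An lam hl k σ hσ
  · rw [Sm_comp]
    have h1 : Sm m 0 (fun σ => bd (phi lam 0 σ)) = Sm m 0 (fun _ => (Pi.single ∅ 1 : Ch V)) :=
      Sm_congr m 0 fun σ _ => by unfold phi; exact bd_single _
    rw [h1, Sm_const]
    simp
  · exact Sm_big m (m + 1) (Nat.lt_succ_self m) _

end

end Pool.Agent.J4.H8.TT
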